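import Pool.Agent.Q39.SP.Defs
import Pool.Agent.Q39.SP.Main

set_option autoImplicit false

/-!
# A Saito-type criterion for strictly plus-one generated arrangements

For homogeneous logarithmic derivations `θ_1, …, θ_{l+1}` of a central arrangement in `K^l`, the
conditions (i) and (ii) of the problem are equivalent, over every field, in every dimension, with no
assumption on the projective dimension of `D(A)`.
-/

namespace Pool.Agent.Results.MP_eea557_ag.SaitoCriterion

open MvPolynomial Pool.Agent.Q39.POG Pool.Agent.Q39.SP

/-- **The equivalence (i) ⇔ (ii) holds.**  For every field `K`, every central arrangement `A` in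
`K^l` and all homogeneous `θ_1, …, θ_{l+1}` in `D(A)`: every `det M_i` is divisible by `Q`, and if
`(-1)^i det M_i = g_i Q` for `i = 1, …, l + 1`, then (i) and (ii) are equivalent.
(The index `i : Fin (l + 1)` starts at `0`, whence the exponent `i + 1`.) -/
theorem result (K : Type) [Field K] (l n : ℕ) (A : Fin n → Fin l → K) (hA : IsArrangement A)
    (θ : Fin (l + 1) → Derivation K (MvPolynomial (Fin l) K) (MvPolynomial (Fin l) K))
    (hθ : ∀ i, θ i ∈ logDer A) (hhom : ∀ i, ∃ p, IsHomogeneousDer (θ i) p) :
    (∀ i, defPoly A ∣ (minorMatrix θ i).det) ∧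
    ∀ g : Fin (l + 1) → MvPolynomial (Fin l) K,
      (∀ i : Fin (l + 1), (-1) ^ ((i : ℕ) + 1) * (minorMatrix θ i).det = g i * defPoly A) →
      (CondI A θ g ↔ CondII g) :=
  ⟨fun i => defPoly_dvd_det hA (fun r => θ (i.succAbove r)) fun _ => hθ _,
    fun _ hg => condI_iff_condII hA hθ hhom hg⟩

end Pool.Agent.Results.MP_eea557_ag.SaitoCriterion
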